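import Mathlib

/-!
MP_1096cc_an, Q1: in the plane (`n = 2`) the three-balls inequality with the Hadamard exponent
`β = log r / log ρ` holds with a finite constant `K = K(ρ, r)`, for all `0 < ρ < r < 1`.
-/

open Metric Set Filter Topology InnerProductSpace

namespace Pool.Agent.Results.MP_1096cc_an.PlaneConstant

/-- `‖u‖_s`, the supremum of `|u|` over the open disc of radius `s` centred at the origin. -/
noncomputable def supBall (u : ℂ → ℂ) (s : ℝ) : ℝ := sSup ((fun z => ‖u z‖) '' ball 0 s)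

/-- The gradient bound. -/
theorem deriv_bound (F : ℂ → ℂ) (c : ℂ) (R M : ℝ) (hR : 0 < R) (hM : 0 < M)
    (hF : DifferentiableOn ℂ F (ball c R)) (hb : ∀ z ∈ ball c R, |(F z).re| ≤ M) :
    ‖deriv F c‖ ≤ 2 * Real.exp 2 * M / R := by
  have hM' : (M : ℂ) ≠ 0 := by exact_mod_cast hM.ne'
  have hc : c ∈ ball c R := mem_ball_self hR
  have hsub : closedBall c (R / 2) ⊆ ball c R := closedBall_subset_ball (by linarith)
  have hnorm : ∀ z, ‖Complex.exp (F z / M)‖ = Real.exp ((F z).re / M) := by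
    intro z
    rw [Complex.norm_exp]
    congr 1
    rw [Complex.div_ofReal_re]
  have hdiff : DifferentiableOn ℂ (fun z => Complex.exp (F z / M)) (ball c R) :=
    (hF.div_const _).cexp
  have h1 : ‖deriv (fun z => Complex.exp (F z / M)) c‖ ≤ Real.exp 1 / (R / 2) := by
    refine Complex.norm_deriv_le_of_forall_mem_sphere_norm_le (by positivity) ?_ ?_
    · exact (hdiff.mono hsub).diffContOnCl_ball (le_refl _)
    · intro z hz
      rw [hnorm]
      apply Real.exp_le_exp.mpr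
      rw [div_le_one hM]
      exact (le_abs_self _).trans (hb z (hsub (sphere_subset_closedBall hz)))
  have hFd : DifferentiableAt ℂ F c := (hF c hc).differentiableAt (isOpen_ball.mem_nhds hc)
  have h2 : deriv (fun z => Complex.exp (F z / M)) c = Complex.exp (F c / M) * (deriv F c / M) := by
    have := (hFd.hasDerivAt.div_const (M : ℂ)).cexp
    exact this.deriv
  rw [h2, norm_mul, hnorm, norm_div, Complex.norm_real, Real.norm_of_nonneg hM.le] at h1
  have h3 : Real.exp (-1) ≤ Real.exp ((F c).re / M) := by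
    apply Real.exp_le_exp.mpr
    rw [le_div_iff₀ hM]
    have := neg_abs_le (F c).re
    have := hb c hc
    linarith
  have h4 : Real.exp (-1) * (‖deriv F c‖ / M) ≤ Real.exp 1 / (R / 2) :=
    (mul_le_mul_of_nonneg_right h3 (by positivity)).trans h1
  have h5 : Real.exp 1 * (Real.exp (-1) * (‖deriv F c‖ / M)) ≤
      Real.exp 1 * (Real.exp 1 / (R / 2)) := mul_le_mul_of_nonneg_left h4 (Real.exp_pos 1).le
  have h6 : Real.exp 1 * Real.exp (-1) = 1 := by rw [← Real.exp_add]; norm_num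
  have h7 : Real.exp 1 * Real.exp 1 = Real.exp 2 := by rw [← Real.exp_add]; norm_num
  rw [← mul_assoc, h6, one_mul, div_le_iff₀ hM] at h5
  calc ‖deriv F c‖ ≤ Real.exp 1 * (Real.exp 1 / (R / 2)) * M := h5
    _ = 2 * (Real.exp 1 * Real.exp 1) * M / R := by field_simp
    _ = 2 * Real.exp 2 * M / R := by rw [h7]

/-- Bound of the derivative on an annulus. -/
theorem annulus (F : ℂ → ℂ) (ρ : ℝ) (m : ℕ) (hm : 1 ≤ m) (hρ : 0 < ρ) (hρ1 : ρ < 1)
    (hF : DifferentiableOn ℂ F (ball 0 1)) (hb1 : ∀ z ∈ ball (0 : ℂ) 1, |(F z).re| ≤ 1)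
    (hbρ : ∀ z ∈ ball (0 : ℂ) ρ, |(F z).re| ≤ ρ ^ (m + 1)) (δ : ℝ) (hδ : δ = 1 / (m + 1))
    (z : ℂ) (hz1 : ρ * (1 - δ) ≤ ‖z‖) (hz2 : ‖z‖ ≤ 1 - δ) :
    ‖deriv F z‖ ≤ 2 * Real.exp 2 * (m + 1) * ((1 - δ)⁻¹) ^ m * ‖z‖ ^ m := by
  have hm1 : (1 : ℝ) ≤ m := by exact_mod_cast hm
  have hδ0 : 0 < δ := by rw [hδ]; positivity
  have hδ1 : δ < 1 := by
    rw [hδ, div_lt_one (by positivity)]
    linarith
  have hinv : 1 / δ = m + 1 := by rw [hδ, one_div_one_div]
  have hs : 0 < 1 - δ := by linarith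
  have hs1 : 0 < ρ * (1 - δ) := by positivity
  have houter : ∀ w : ℂ, ‖w‖ = 1 - δ →
      ‖deriv F w‖ ≤ 2 * Real.exp 2 * (m + 1) * ((1 - δ)⁻¹) ^ m * ‖w‖ ^ m := by
    intro w hw
    have hsub : ball w δ ⊆ ball 0 1 := by
      apply ball_subset_ball'
      rw [dist_zero_right, hw]
      linarith
    have h := deriv_bound F w δ 1 hδ0 one_pos (hF.mono hsub) (fun x hx => hb1 x (hsub hx))
    have e : 2 * Real.exp 2 * 1 / δ = 2 * Real.exp 2 * (m + 1) := by
      rw [← hinv]; ring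
    rw [e] at h
    rw [hw, mul_assoc _ _ ((1 - δ) ^ m), ← mul_pow, inv_mul_cancel₀ hs.ne', one_pow, mul_one]
    exact h
  have hinner : ∀ w : ℂ, ‖w‖ = ρ * (1 - δ) →
      ‖deriv F w‖ ≤ 2 * Real.exp 2 * (m + 1) * ((1 - δ)⁻¹) ^ m * ‖w‖ ^ m := by
    intro w hw
    have hsub : ball w (ρ * δ) ⊆ ball 0 ρ := by
      apply ball_subset_ball'
      rw [dist_zero_right, hw]
      apply le_of_eq
      ring
    have hsub1 : ball (0 : ℂ) ρ ⊆ ball 0 1 := ball_subset_ball hρ1.le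
    have h := deriv_bound F w (ρ * δ) (ρ ^ (m + 1)) (by positivity) (by positivity)
      (hF.mono (hsub.trans hsub1)) (fun x hx => hbρ x (hsub hx))
    have e : 2 * Real.exp 2 * ρ ^ (m + 1) / (ρ * δ) = 2 * Real.exp 2 * (m + 1) * ρ ^ m := by
      rw [← hinv, pow_succ]
      field_simp
    rw [e] at h
    rw [hw, mul_pow, mul_assoc _ _ (ρ ^ m * (1 - δ) ^ m), mul_comm (ρ ^ m), ← mul_assoc _ ((1 - δ) ^ m),
      ← mul_pow, inv_mul_cancel₀ hs.ne', one_pow, one_mul]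
    exact h
  -- interior points: maximum modulus principle
  rcases hz1.eq_or_lt with h1 | h1
  · exact hinner z h1.symm
  rcases hz2.eq_or_lt with h2 | h2
  · exact houter z h2
  set A : Set ℂ := {w | ρ * (1 - δ) < ‖w‖ ∧ ‖w‖ < 1 - δ} with hA
  have hAopen : IsOpen A :=
    (isOpen_lt continuous_const continuous_norm).inter (isOpen_lt continuous_norm continuous_const)
  have hAcl : closure A ⊆ {w | ρ * (1 - δ) ≤ ‖w‖ ∧ ‖w‖ ≤ 1 - δ} := by
    apply closure_minimal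
    · rintro w ⟨ha, hb⟩
      exact ⟨ha.le, hb.le⟩
    · exact (isClosed_le continuous_const continuous_norm).inter
        (isClosed_le continuous_norm continuous_const)
  have hAb : Bornology.IsBounded A := by
    rw [Metric.isBounded_iff_subset_ball 0]
    refine ⟨1, fun w hw => ?_⟩
    rw [mem_ball_zero_iff]
    linarith [hw.2]
  have hdF : DifferentiableOn ℂ (deriv F) (ball 0 1) := hF.deriv isOpen_ball
  have hclsub : closure A ⊆ ball 0 1 := by
    intro w hw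
    rw [mem_ball_zero_iff]
    linarith [(hAcl hw).2]
  have hne : ∀ w ∈ closure A, w ≠ 0 := by
    intro w hw h0
    have := (hAcl hw).1
    rw [h0, norm_zero] at this
    linarith
  have hg : DiffContOnCl ℂ (fun w => deriv F w / w ^ m) A := by
    apply DifferentiableOn.diffContOnCl
    exact (hdF.mono hclsub).div (differentiableOn_id.pow m) (fun w hw => pow_ne_zero m (hne w hw))
  have hfront : ∀ w ∈ frontier A, ‖deriv F w / w ^ m‖ ≤
      2 * Real.exp 2 * (m + 1) * ((1 - δ)⁻¹) ^ m := by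
    intro w hw
    have hwc : w ∈ closure A := frontier_subset_closure hw
    have hwn : w ∉ A := by
      rw [hAopen.frontier_eq] at hw
      exact hw.2
    have hw0 : 0 < ‖w‖ ^ m := pow_pos (norm_pos_iff.mpr (hne w hwc)) m
    rw [norm_div, norm_pow, div_le_iff₀ hw0]
    have h3 := hAcl hwc
    by_cases h4 : ‖w‖ = 1 - δ
    · exact houter w h4
    · apply hinner
      by_contra h5
      exact hwn ⟨lt_of_le_of_ne h3.1 (Ne.symm h5), lt_of_le_of_ne h3.2 h4⟩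
  have hzA : z ∈ closure A := subset_closure ⟨h1, h2⟩
  have hfin := Complex.norm_le_of_forall_mem_frontier_norm_le hAb hg hfront hzA
  have hz0 : 0 < ‖z‖ ^ m := pow_pos (norm_pos_iff.mpr (hne z hzA)) m
  rwa [norm_div, norm_pow, div_le_iff₀ hz0] at hfin

/-- The key bound. -/
theorem key (F : ℂ → ℂ) (ρ r : ℝ) (m : ℕ) (hm : 1 ≤ m) (hρ : 0 < ρ) (hρr : ρ < r)
    (hr1 : r ≤ 1 - 1 / ((m : ℝ) + 1))
    (hF : DifferentiableOn ℂ F (ball 0 1)) (hb1 : ∀ z ∈ ball (0 : ℂ) 1, |(F z).re| ≤ 1)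
    (hbρ : ∀ z ∈ ball (0 : ℂ) ρ, |(F z).re| ≤ ρ ^ (m + 1)) (z : ℂ) (hz : z ∈ ball (0 : ℂ) r) :
    |(F z).re| ≤ (1 + 2 * Real.exp 3) * r ^ (m + 1) := by
  have hm1 : (1 : ℝ) ≤ m := by exact_mod_cast hm
  set δ : ℝ := 1 / ((m : ℝ) + 1) with hδ
  have hδ0 : 0 < δ := by positivity
  have hδ1 : δ < 1 := by
    rw [hδ, div_lt_one (by positivity)]
    linarith
  have hs : 0 < 1 - δ := by linarith
  have hρ1 : ρ < 1 := by linarith
  have hr0 : 0 < r := hρ.trans hρr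
  have hpow : ρ ^ (m + 1) ≤ r ^ (m + 1) := pow_le_pow_left₀ hρ.le hρr.le _
  have hrpos : 0 < r ^ (m + 1) := by positivity
  rw [mem_ball_zero_iff] at hz
  by_cases hz1 : ‖z‖ < ρ
  · have h := hbρ z (by rwa [mem_ball_zero_iff])
    have h3 : 0 ≤ 2 * Real.exp 3 * r ^ (m + 1) := by positivity
    linarith
  rw [not_lt] at hz1
  have hz0 : 0 < ‖z‖ := hρ.trans_le hz1
  set t₀ := ρ * (1 - δ) with ht₀
  have ht₀0 : 0 < t₀ := by positivity
  have ht₀ρ : t₀ < ρ := by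
    rw [ht₀]
    nlinarith
  set ζ : ℂ := z / (‖z‖ : ℂ) with hζ
  have hζn : ‖ζ‖ = 1 := by
    rw [hζ, norm_div, Complex.norm_real, Real.norm_of_nonneg hz0.le, div_self hz0.ne']
  have hnt : ∀ t : ℝ, 0 ≤ t → ‖(t : ℂ) * ζ‖ = t := by
    intro t ht
    rw [norm_mul, hζn, mul_one, Complex.norm_real, Real.norm_of_nonneg ht]
  have hder : ∀ t ∈ Icc t₀ ‖z‖, HasDerivAt (fun t : ℝ => F ((t : ℂ) * ζ) - F ((t₀ : ℂ) * ζ))
      (deriv F ((t : ℂ) * ζ) * ζ) t := by
    intro t ht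
    have ht0 : 0 ≤ t := ht₀0.le.trans ht.1
    have hmem : (t : ℂ) * ζ ∈ ball (0 : ℂ) 1 := by
      rw [mem_ball_zero_iff, hnt t ht0]
      linarith [ht.2]
    have hd : HasDerivAt F (deriv F ((t : ℂ) * ζ)) ((t : ℂ) * ζ) :=
      ((hF _ hmem).differentiableAt (isOpen_ball.mem_nhds hmem)).hasDerivAt
    have h2 : HasDerivAt (fun t : ℝ => (t : ℂ) * ζ) ζ t := by
      have := (Complex.ofRealCLM.hasDerivAt (x := t)).mul_const ζ
      simpa using this
    exact (hd.comp t h2).sub_const _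
  have hC : ((1 - δ)⁻¹) ^ m ≤ Real.exp 1 := by
    have hm0 : (m : ℝ) ≠ 0 := by linarith
    have hm2 : (m : ℝ) + 1 ≠ 0 := by linarith
    have h1 : (1 - δ)⁻¹ = 1 + 1 / (m : ℝ) := by
      have h0 : 1 - δ = m / (m + 1) := by
        rw [hδ, eq_div_iff hm2, sub_mul, div_mul_cancel₀ _ hm2]
        ring
      rw [h0, inv_div, add_div, div_self hm0]
    rw [h1]
    have h2 : 1 + 1 / (m : ℝ) ≤ Real.exp (1 / m) := by
      have := Real.add_one_le_exp (1 / (m : ℝ))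
      linarith
    calc (1 + 1 / (m : ℝ)) ^ m ≤ (Real.exp (1 / m)) ^ m := pow_le_pow_left₀ (by positivity) h2 m
      _ = Real.exp 1 := by
        rw [← Real.exp_nat_mul]
        congr 1
        field_simp
  have hint : ‖F (((‖z‖ : ℝ) : ℂ) * ζ) - F ((t₀ : ℂ) * ζ)‖ ≤
      2 * Real.exp 2 * ((1 - δ)⁻¹) ^ m * ‖z‖ ^ (m + 1) := by
    refine image_norm_le_of_norm_deriv_right_le_deriv_boundary
      (f := fun t : ℝ => F ((t : ℂ) * ζ) - F ((t₀ : ℂ) * ζ))
      (f' := fun t : ℝ => deriv F ((t : ℂ) * ζ) * ζ) (a := t₀) (b := ‖z‖)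
      (B := fun t => 2 * Real.exp 2 * ((1 - δ)⁻¹) ^ m * t ^ (m + 1))
      (B' := fun t => 2 * Real.exp 2 * ((1 - δ)⁻¹) ^ m * (((m + 1 : ℕ) : ℝ) * t ^ m)) ?_ ?_ ?_ ?_ ?_ ?_
    · exact fun t ht => (hder t ht).continuousAt.continuousWithinAt
    · exact fun t ht => (hder t (Ico_subset_Icc_self ht)).hasDerivWithinAt
    · rw [sub_self, norm_zero]
      positivity
    · intro t
      exact (hasDerivAt_pow (m + 1) t).const_mul _
    · intro t ht
      have ht0 : 0 ≤ t := ht₀0.le.trans ht.1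
      rw [norm_mul, hζn, mul_one]
      have := annulus F ρ m hm hρ hρ1 hF hb1 hbρ δ hδ ((t : ℂ) * ζ) (by rw [hnt t ht0]; exact ht.1)
        (by rw [hnt t ht0]; linarith [ht.2])
      rw [hnt t ht0] at this
      push_cast
      linarith
    · exact ⟨(ht₀ρ.le.trans hz1), le_refl _⟩
  have hzz : ((‖z‖ : ℝ) : ℂ) * ζ = z := by
    rw [hζ, mul_div_cancel₀]
    exact_mod_cast hz0.ne'
  rw [hzz] at hint
  have h1 : |(F z).re - (F ((t₀ : ℂ) * ζ)).re| ≤ ‖F z - F ((t₀ : ℂ) * ζ)‖ := by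
    rw [← Complex.sub_re]
    exact Complex.abs_re_le_norm _
  have h2 : |(F ((t₀ : ℂ) * ζ)).re| ≤ ρ ^ (m + 1) := by
    apply hbρ
    rw [mem_ball_zero_iff, hnt t₀ ht₀0.le]
    exact ht₀ρ
  have h3 : 2 * Real.exp 2 * ((1 - δ)⁻¹) ^ m * ‖z‖ ^ (m + 1) ≤ 2 * Real.exp 3 * r ^ (m + 1) := by
    have e3 : Real.exp 3 = Real.exp 2 * Real.exp 1 := by rw [← Real.exp_add]; norm_num
    rw [e3]
    have hzr : ‖z‖ ^ (m + 1) ≤ r ^ (m + 1) := pow_le_pow_left₀ hz0.le hz.le _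
    have : 2 * Real.exp 2 * ((1 - δ)⁻¹) ^ m ≤ 2 * Real.exp 2 * Real.exp 1 :=
      mul_le_mul_of_nonneg_left hC (by positivity)
    calc _ ≤ (2 * Real.exp 2 * Real.exp 1) * r ^ (m + 1) :=
        mul_le_mul this hzr (by positivity) (by positivity)
      _ = _ := by ring
  have h4 : |(F z).re| ≤ |(F z).re - (F ((t₀ : ℂ) * ζ)).re| + |(F ((t₀ : ℂ) * ζ)).re| := by
    have := abs_add_le ((F z).re - (F ((t₀ : ℂ) * ζ)).re) (F ((t₀ : ℂ) * ζ)).re
    rwa [sub_add_cancel] at this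
  linarith

/-- The real-valued case with an explicit exponent. -/
theorem real_case (ρ r : ℝ) (hρ : 0 < ρ) (hρr : ρ < r) (hr : r < 1) :
    ∃ K : ℝ, 0 < K ∧ ∀ v : ℂ → ℝ, HarmonicOnNhd v (ball 0 1) →
      (∀ z ∈ ball (0 : ℂ) 1, |v z| ≤ 1) → ∀ ε : ℝ, 0 < ε → (∀ z ∈ ball (0 : ℂ) ρ, |v z| ≤ ε) →
        ∀ z ∈ ball (0 : ℂ) r, |v z| ≤ K * ε ^ (Real.log r / Real.log ρ) := by
  have hr0 : 0 < r := hρ.trans hρr
  have hρ1 : ρ < 1 := hρr.trans hr
  have hlr : Real.log r < 0 := Real.log_neg hr0 hr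
  have hlρ : Real.log ρ < 0 := Real.log_neg hρ hρ1
  set β := Real.log r / Real.log ρ with hβ
  have hβ0 : 0 < β := div_pos_of_neg_of_neg hlr hlρ
  have hρβ : ρ ^ β = r := by
    rw [Real.rpow_def_of_pos hρ, hβ, mul_div_cancel₀ _ hlρ.ne, Real.exp_log hr0]
  have hρnβ : ∀ n : ℕ, (ρ ^ n) ^ β = r ^ n := by
    intro n
    rw [← Real.rpow_natCast, ← Real.rpow_mul hρ.le, mul_comm, Real.rpow_mul hρ.le, hρβ,
      Real.rpow_natCast]
  obtain ⟨m₀, hm₀⟩ := exists_nat_gt (1 / (1 - r))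
  have h1r : 0 < 1 - r := by linarith
  refine ⟨(1 + 2 * Real.exp 3) / r + 1 / r ^ (m₀ + 2), by positivity, ?_⟩
  intro v hv hv1 ε hε hvε z hz
  have hε' : 0 < ε ^ β := Real.rpow_pos_of_pos hε β
  by_cases hc : ε ≤ ρ ^ (m₀ + 2)
  · -- main case
    obtain ⟨n, hn1, hn2⟩ := exists_nat_pow_near_of_lt_one hε
      (hc.trans (pow_le_one₀ hρ.le hρ1.le)) hρ hρ1
    have hn : m₀ + 2 ≤ n := by
      by_contra hlt
      rw [not_le] at hlt
      have : ρ ^ (m₀ + 2) ≤ ρ ^ (n + 1) := pow_le_pow_of_le_one hρ.le hρ1.le (by omega)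
      linarith
    obtain ⟨m, rfl⟩ : ∃ m, n = m + 1 := ⟨n - 1, by omega⟩
    obtain ⟨F, hF, hFv⟩ := hv.exists_analyticOnNhd_ball_re_eq
    have hFv' : ∀ w ∈ ball (0 : ℂ) 1, (F w).re = v w := fun w hw => hFv hw
    have hmr : r ≤ 1 - 1 / ((m : ℝ) + 1) := by
      have h1 : (1 / (1 - r)) < (m : ℝ) + 1 := by
        have : (m₀ : ℝ) ≤ m + 1 := by exact_mod_cast (by omega : m₀ ≤ m + 1)
        linarith
      have h2 : 1 / ((m : ℝ) + 1) < 1 - r := by
        rw [div_lt_iff₀ h1r] at h1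
        rw [div_lt_iff₀ (by positivity)]
        linarith
      linarith
    have hk := key F ρ r m (by omega) hρ hρr hmr hF.differentiableOn
      (fun w hw => by rw [hFv' w hw]; exact hv1 w hw)
      (fun w hw => by
        rw [hFv' w (ball_subset_ball hρ1.le hw)]
        exact (hvε w hw).trans hn2) z hz
    rw [hFv' z (ball_subset_ball hr.le hz)] at hk
    have h5 : r ^ (m + 1 + 1) ≤ ε ^ β := by
      rw [← hρnβ]
      exact Real.rpow_le_rpow (by positivity) hn1.le hβ0.le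
    have h6 : (1 + 2 * Real.exp 3) * r ^ (m + 1) = (1 + 2 * Real.exp 3) / r * r ^ (m + 1 + 1) := by
      rw [pow_succ r (m + 1)]
      field_simp
    calc |v z| ≤ (1 + 2 * Real.exp 3) * r ^ (m + 1) := hk
      _ = (1 + 2 * Real.exp 3) / r * r ^ (m + 1 + 1) := h6
      _ ≤ (1 + 2 * Real.exp 3) / r * ε ^ β := mul_le_mul_of_nonneg_left h5 (by positivity)
      _ ≤ ((1 + 2 * Real.exp 3) / r + 1 / r ^ (m₀ + 2)) * ε ^ β := by
        apply mul_le_mul_of_nonneg_right _ hε'.le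
        have : 0 < 1 / r ^ (m₀ + 2) := by positivity
        linarith
  · rw [not_le] at hc
    have h5 : r ^ (m₀ + 2) ≤ ε ^ β := by
      rw [← hρnβ]
      exact Real.rpow_le_rpow (by positivity) hc.le hβ0.le
    have h6 : 1 ≤ 1 / r ^ (m₀ + 2) * ε ^ β := by
      rw [div_mul_eq_mul_div, one_mul, one_le_div (by positivity)]
      exact h5
    have h7 : 0 ≤ (1 + 2 * Real.exp 3) / r * ε ^ β := by positivity
    have h8 := hv1 z (ball_subset_ball hr.le hz)
    rw [add_mul]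
    linarith

/-- **Answer to Q1 (negative), for `n = 2`.** For all `0 < ρ < r < 1` there is a finite constant
`K` with `‖u‖_r ≤ K ‖u‖_ρ ^ β`, `β = log r / log ρ`, for all complex-valued harmonic functions
`u` on the unit disc with `‖u‖_1 = 1`. -/
theorem result (ρ r : ℝ) (hρ : 0 < ρ) (hρr : ρ < r) (hr : r < 1) :
    ∃ K : ℝ, ∀ u : ℂ → ℂ, HarmonicOnNhd u (ball 0 1) →
      IsLUB ((fun z => ‖u z‖) '' ball 0 1) 1 →
        supBall u r ≤ K * supBall u ρ ^ (Real.log r / Real.log ρ) := by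
  obtain ⟨K, hK0, hK⟩ := real_case ρ r hρ hρr hr
  have hr0 : 0 < r := hρ.trans hρr
  have hρ1 : ρ < 1 := hρr.trans hr
  have hlr : Real.log r < 0 := Real.log_neg hr0 hr
  have hlρ : Real.log ρ < 0 := Real.log_neg hρ hρ1
  set β := Real.log r / Real.log ρ with hβ
  have hβ0 : 0 < β := div_pos_of_neg_of_neg hlr hlρ
  refine ⟨2 * K, fun u hu hsup => ?_⟩
  have hu1 : ∀ z ∈ ball (0 : ℂ) 1, ‖u z‖ ≤ 1 := fun z hz => hsup.1 ⟨z, hz, rfl⟩
  have hre : HarmonicOnNhd (fun z => (u z).re) (ball 0 1) := hu.comp_CLM Complex.reCLM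
  have him : HarmonicOnNhd (fun z => (u z).im) (ball 0 1) := hu.comp_CLM Complex.imCLM
  have hbdd : BddAbove ((fun z => ‖u z‖) '' ball 0 ρ) := by
    refine ⟨1, ?_⟩
    rintro _ ⟨z, hz, rfl⟩
    exact hu1 z (ball_subset_ball hρ1.le hz)
  have hE : ∀ z ∈ ball (0 : ℂ) ρ, ‖u z‖ ≤ supBall u ρ := fun z hz => le_csSup hbdd ⟨z, hz, rfl⟩
  have hE0 : 0 ≤ supBall u ρ := (norm_nonneg _).trans (hE 0 (mem_ball_self hρ))
  apply csSup_le
  · exact ⟨_, 0, mem_ball_self hr0, rfl⟩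
  rintro _ ⟨z, hz, rfl⟩
  simp only
  have hmain : ∀ ε : ℝ, supBall u ρ < ε → ‖u z‖ ≤ 2 * K * ε ^ β := by
    intro ε hε
    have hε0 : 0 < ε := hE0.trans_lt hε
    have h1 := hK _ hre (fun w hw => (Complex.abs_re_le_norm _).trans (hu1 w hw)) ε hε0
      (fun w hw => (Complex.abs_re_le_norm _).trans ((hE w hw).trans hε.le)) z hz
    have h2 := hK _ him (fun w hw => (Complex.abs_im_le_norm _).trans (hu1 w hw)) ε hε0
      (fun w hw => (Complex.abs_im_le_norm _).trans ((hE w hw).trans hε.le)) z hz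
    have h3 := Complex.norm_le_abs_re_add_abs_im (u z)
    linarith
  have hcont : Tendsto (fun ε : ℝ => 2 * K * ε ^ β) (𝓝[>] (supBall u ρ))
      (𝓝 (2 * K * supBall u ρ ^ β)) := by
    refine Tendsto.mono_left ?_ nhdsWithin_le_nhds
    exact (((Real.continuous_rpow_const hβ0.le).continuousAt).tendsto).const_mul _
  refine ge_of_tendsto hcont ?_
  filter_upwards [self_mem_nhdsWithin] with ε hε
  exact hmain ε hε

end Pool.Agent.Results.MP_1096cc_an.PlaneConstant
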